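import Pool.Agent.Work.MP_3035da_co.Br.TriVal
import Pool.Agent.Work.MP_3035da_co.K.UniqRel
import Pool.Agent.Work.MP_3035da_co.Defs

/-!
A triangulated plane graph with at least four vertices is a `CC3.Sph`.
-/

set_option autoImplicit false

namespace Pool.Agent.Work.MP_3035da_co

open Finset

open Classical in
theorem to_sph {V ι : Type} [Fintype V] [Fintype ι] {G : SimpleGraph V} {g : ι → K.Chain V}
    (hg : K.FaceSys G g) (hG : K.TwoConn G) (ht : ∀ i, K.IsTri (g i))
    (h4 : ∃ p : Fin 4 → V, Function.Injective p ∧ ∀ j, p j ∈ K.U G) :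
    ∃ T : CC3.Sph V, ∀ u v, T.gr.Adj u v ↔ G.Adj u v := by
  obtain ⟨p, hp, hpU⟩ := h4
  choose a b c hab hbc hac hgt using ht
  set tv : ι → Finset V := fun k => {a k, b k, c k} with htv
  have hmem : ∀ k u, u ∈ tv k ↔ (u = a k ∨ u = b k ∨ u = c k) := by
    intro k u; simp [htv]
  have hval : ∀ k u v, g k s(u, v) = 1 ↔ (u ≠ v ∧ u ∈ tv k ∧ v ∈ tv k) := by
    intro k u v
    rw [hgt k, tri_val (hab k) (hbc k) (hac k) u v, hmem, hmem]
  have hcard : ∀ k, (tv k).card = 3 := by
    intro k
    rw [htv]
    exact Finset.card_eq_three.mpr ⟨a k, b k, c k, hab k, hac k, hbc k, rfl⟩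
  have hne : ∀ k, g k ≠ 0 := by
    intro k h
    have := (hval k (a k) (b k)).mpr ⟨hab k, (hmem _ _).mpr (Or.inl rfl),
      (hmem _ _).mpr (Or.inr (Or.inl rfl))⟩
    rw [h] at this
    exact absurd this (by simp)
  -- every edge is in a face
  have hface : ∀ {u v : V}, G.Adj u v → ∃ k, g k s(u, v) = 1 := by
    intro u v huv
    have : ∃ j, p j ≠ u ∧ p j ≠ v := by
      by_contra hcon
      push Not at hcon
      have hsub : univ.image p ⊆ ({u, v} : Finset V) := by
        intro w hw
        obtain ⟨j, -, rfl⟩ := mem_image.mp hw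
        by_cases h1 : p j = u
        · simp [h1]
        · simp [hcon j h1]
      have h1 := card_le_card hsub
      rw [card_image_of_injective _ hp] at h1
      have h2 : ({u, v} : Finset V).card ≤ 2 := card_le_two
      simp at h1
      omega
    obtain ⟨j, hju, hjv⟩ := this
    exact K.no_bridge hG hg huv (hpU j) hju hjv
  have hadjv : ∀ {k u v}, g k s(u, v) = 1 → G.Adj u v := by
    intro k u v h
    exact (hg.mem k).1 _ (by rw [h]; decide)
  -- injectivity
  have hinj : Function.Injective tv := by
    intro k k' hkk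
    by_contra hne'
    have heq : g k = g k' := by
      funext e
      induction e using Sym2.ind with
      | _ u v =>
        have h1 := hval k u v
        have h2 := hval k' u v
        rw [← hkk] at h2
        rcases K.zo (g k s(u, v)) with h3 | h3
        · rcases K.zo (g k' s(u, v)) with h5 | h5
          · rw [h3, h5]
          · rw [h1.mpr (h2.mp h5)] at h3; exact absurd h3 (by decide)
        · rw [h3, h2.mpr (h1.mp h3)]
    have hsum : ∑ i ∈ ({k, k'} : Finset ι), g i = 0 := by
      rw [sum_pair hne', heq]
      exact K.chain_add_self _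
    rcases K.uniq_rel hG hg _ hsum with h1 | h1
    · exact hne k (h1 k (by simp))
    · have hall : ∀ i, i = k ∨ i = k' := by
        intro i
        by_contra hcon
        push Not at hcon
        exact hne i (h1 i (by simp [hcon.1, hcon.2]))
      have hsub : univ.image p ⊆ tv k := by
        intro w hw
        obtain ⟨j, -, rfl⟩ := mem_image.mp hw
        obtain ⟨u, hu⟩ := hpU j
        obtain ⟨i, hi⟩ := hface hu
        have h2 := ((hval i _ _).mp hi).2.1
        rcases hall i with h3 | h3
        · rw [← h3]; exact h2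
        · rw [hkk, ← h3]; exact h2
      have h2 := card_le_card hsub
      rw [card_image_of_injective _ hp, hcard k] at h2
      simp at h2
  -- the set of triangles
  set F : Finset (Finset V) := univ.image tv with hF
  have hFmem : ∀ t, t ∈ F ↔ ∃ k, tv k = t := by
    intro t; rw [hF]; simp
  have hsub_img : ∀ X ⊆ F, X = (univ.filter (fun k => tv k ∈ X)).image tv := by
    intro X hX
    ext t
    simp only [mem_image, mem_filter, mem_univ, true_and]
    constructor
    · intro h
      obtain ⟨k, rfl⟩ := (hFmem t).mp (hX h)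
      exact ⟨k, h, rfl⟩
    · rintro ⟨k, h, rfl⟩
      exact h
  have hcount : ∀ (S : Finset ι) (u v : V), u ≠ v →
      (((S.image tv).filter (fun t => u ∈ t ∧ v ∈ t)).card : ZMod 2) = (∑ i ∈ S, g i) s(u, v) := by
    intro S u v huv
    rw [K.sum_apply_card, filter_image, card_image_of_injective _ hinj]
    congr 2
    ext k
    simp only [mem_filter]
    rw [hval]
    simp [huv]
  have hloop : ∀ (S : Finset ι) (v : V), (∑ i ∈ S, g i) s(v, v) = 0 := by
    intro S v
    rw [Finset.sum_apply]
    refine sum_eq_zero fun i _ => ?_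
    rcases K.zo (g i s(v, v)) with h | h
    · exact h
    · exact absurd rfl ((hval i v v).mp h).1
  have hbd : ∀ (S : Finset ι) (u v : V), CC3.bd (S.image tv) u v = (∑ i ∈ S, g i) s(u, v) := by
    intro S u v
    unfold CC3.bd
    by_cases huv : u = v
    · rw [if_pos huv, huv, hloop]
    · rw [if_neg huv]
      exact hcount S u v huv
  refine ⟨⟨F, ?_, ?_, ?_, ?_, ?_⟩, ?_⟩
  · intro t ht
    obtain ⟨k, rfl⟩ := (hFmem t).mp ht
    exact hcard k
  · rintro u v huv ⟨t, ht, hu, hv⟩
    obtain ⟨k, rfl⟩ := (hFmem t).mp ht
    have h1 : g k s(u, v) = 1 := (hval k u v).mpr ⟨huv, hu, hv⟩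
    rw [hF, filter_image, card_image_of_injective _ hinj]
    rcases hg.two s(u, v) with h2 | h2
    · rw [h2 k] at h1; exact absurd h1 (by decide)
    · refine Eq.trans (congrArg card ?_) h2
      ext k'
      simp only [mem_filter, mem_univ, true_and]
      rw [hval]
      simp [huv]
  · intro v X hX hXv hXb
    set S := univ.filter (fun k => tv k ∈ X) with hS
    have hXS := hsub_img X hX
    rw [← hS] at hXS
    have h0 : ∀ c, (∑ i ∈ S, g i) s(v, c) = 0 := by
      intro c
      rw [← hbd S v c, ← hXS]
      exact hXb c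
    rcases K.same_class hG hg S v h0 with h1 | h1
    · right
      ext t
      simp only [mem_filter]
      constructor
      · intro h
        exact ⟨hX h, hXv t h⟩
      · rintro ⟨h, hv⟩
        obtain ⟨k, rfl⟩ := (hFmem t).mp h
        obtain ⟨w, hw, hwv⟩ : ∃ w ∈ tv k, w ≠ v := by
          by_contra hcon
          push Not at hcon
          have h2 : tv k ⊆ {v} := fun w hw => by simp [hcon w hw]
          have h3 := card_le_card h2
          rw [hcard k, card_singleton] at h3
          omega
        have h2 := h1 k w ((hval k v w).mpr ⟨hwv.symm, hv, hw⟩)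
        rw [hS] at h2
        exact (mem_filter.mp h2).2
    · left
      rw [eq_empty_iff_forall_notMem]
      intro t h
      have hv := hXv t h
      obtain ⟨k, rfl⟩ := (hFmem t).mp (hX h)
      obtain ⟨w, hw, hwv⟩ : ∃ w ∈ tv k, w ≠ v := by
        by_contra hcon
        push Not at hcon
        have h2 : tv k ⊆ {v} := fun w hw => by simp [hcon w hw]
        have h3 := card_le_card h2
        rw [hcard k, card_singleton] at h3
        omega
      exact h1 k w ((hval k v w).mpr ⟨hwv.symm, hv, hw⟩) (by rw [hS]; simp [h])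
  · intro X hX hXb
    set S := univ.filter (fun k => tv k ∈ X) with hS
    have hXS := hsub_img X hX
    rw [← hS] at hXS
    have h0 : ∑ i ∈ S, g i = 0 := by
      funext e
      induction e using Sym2.ind with
      | _ u v =>
        rw [← hbd S u v, ← hXS, hXb]
        rfl
    rcases K.uniq_rel hG hg S h0 with h1 | h1
    · left
      rw [hXS]
      have : S = ∅ := by
        rw [eq_empty_iff_forall_notMem]
        intro k hk
        exact hne k (h1 k hk)
      rw [this, image_empty]
    · right
      rw [hXS, hF]
      have : S = univ := by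
        rw [eq_univ_iff_forall]
        intro k
        by_contra hk
        exact hne k (h1 k hk)
      rw [this]
  · intro h hsym hevn hsupp
    set z : K.Chain V := fun e => Sym2.lift ⟨h, fun u v => hsym u v⟩ e with hz
    have hzv : ∀ u v, z s(u, v) = h u v := fun u v => rfl
    have hzc : z ∈ K.cyc G := by
      refine ⟨fun e he => ?_, fun v => ?_⟩
      · induction e using Sym2.ind with
        | _ u v =>
          rw [hzv] at he
          obtain ⟨huv, t, ht, hu, hv⟩ := hsupp u v he
          obtain ⟨k, rfl⟩ := (hFmem t).mp ht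
          exact hadjv ((hval k u v).mpr ⟨huv, hu, hv⟩)
      · unfold K.bd
        simp only [hzv]
        exact hevn v
    obtain ⟨S, hS⟩ := hg.span z hzc
    refine ⟨S.image tv, ?_, ?_⟩
    · intro t ht
      obtain ⟨k, -, rfl⟩ := mem_image.mp ht
      exact (hFmem _).mpr ⟨k, rfl⟩
    · funext u v
      rw [hbd S u v, ← hS, hzv]
  · intro u v
    constructor
    · rintro ⟨huv, t, ht, hu, hv⟩
      obtain ⟨k, rfl⟩ := (hFmem t).mp ht
      exact hadjv ((hval k u v).mpr ⟨huv, hu, hv⟩)
    · intro h
      obtain ⟨k, hk⟩ := hface h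
      obtain ⟨huv, hu, hv⟩ := (hval k u v).mp hk
      exact ⟨huv, tv k, (hFmem _).mpr ⟨k, rfl⟩, hu, hv⟩

end Pool.Agent.Work.MP_3035da_co
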