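import Pool.Agent.Work.MP_3035da_co.T.Defs

/-!
Values of the chain of a triangle.
-/

set_option autoImplicit false

namespace Pool.Agent.Work.MP_3035da_co

open Finset K

theorem tri_val {V : Type} {a b c : V} (hab : a ≠ b) (hbc : b ≠ c) (hac : a ≠ c) (u v : V) :
    K.tri a b c s(u, v) = 1 ↔
      u ≠ v ∧ (u = a ∨ u = b ∨ u = c) ∧ (v = a ∨ v = b ∨ v = c) := by
  classical
  unfold K.tri
  simp only [Pi.add_apply]
  unfold K.sing
  by_cases hua : u = a
  · subst hua
    by_cases hvb : v = b
    · subst hvb
      have h1 : s(u, v) ≠ s(v, c) := by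
        intro h; rcases Sym2.eq_iff.mp h with ⟨h, -⟩ | ⟨h, -⟩
        · exact hab h
        · exact hac h
      have h2 : s(u, v) ≠ s(u, c) := by
        intro h; rcases Sym2.eq_iff.mp h with ⟨-, h⟩ | ⟨h, -⟩
        · exact hbc h
        · exact hac h
      simp [h1, h2, hab]
    · by_cases hvc : v = c
      · subst hvc
        have h1 : s(u, v) ≠ s(u, b) := by
          intro h; rcases Sym2.eq_iff.mp h with ⟨-, h⟩ | ⟨h, -⟩
          · exact hbc h.symm
          · exact hab h
        have h2 : s(u, v) ≠ s(b, v) := by
          intro h; rcases Sym2.eq_iff.mp h with ⟨h, -⟩ | ⟨h, -⟩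
          · exact hab h
          · exact hac h
        simp [h1, h2, hac]
      · have h1 : s(u, v) ≠ s(u, b) := by
          intro h; rcases Sym2.eq_iff.mp h with ⟨-, h⟩ | ⟨h, -⟩
          · exact hvb h
          · exact hab h
        have h2 : s(u, v) ≠ s(b, c) := by
          intro h; rcases Sym2.eq_iff.mp h with ⟨h, -⟩ | ⟨h, -⟩
          · exact hab h
          · exact hac h
        have h3 : s(u, v) ≠ s(u, c) := by
          intro h; rcases Sym2.eq_iff.mp h with ⟨-, h⟩ | ⟨h, -⟩
          · exact hvc h
          · exact hac h
        simp only [h1, h2, h3, if_false, hvb, hvc, or_false]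
        constructor
        · intro h; exact absurd h (by decide)
        · rintro ⟨h4, -, h5⟩; exact absurd h5.symm h4
  · by_cases hub : u = b
    · subst hub
      by_cases hva : v = a
      · subst hva
        have h1 : s(u, v) = s(v, u) := Sym2.eq_swap
        have h2 : s(u, v) ≠ s(u, c) := by
          intro h; rcases Sym2.eq_iff.mp h with ⟨-, h⟩ | ⟨h, -⟩
          · exact hac h
          · exact hbc h
        have h3 : s(u, v) ≠ s(v, c) := by
          intro h; rcases Sym2.eq_iff.mp h with ⟨h, -⟩ | ⟨h, -⟩
          · exact hua h
          · exact hbc h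
        simp [h2, h3, ← h1, hua]
      · by_cases hvc : v = c
        · subst hvc
          have h1 : s(u, v) ≠ s(a, u) := by
            intro h; rcases Sym2.eq_iff.mp h with ⟨h, -⟩ | ⟨-, h⟩
            · exact hua h
            · exact hva h
          have h2 : s(u, v) ≠ s(a, v) := by
            intro h; rcases Sym2.eq_iff.mp h with ⟨h, -⟩ | ⟨h, -⟩
            · exact hua h
            · exact hbc h
          simp [h1, h2, hbc]
        · have h1 : s(u, v) ≠ s(a, u) := by
            intro h; rcases Sym2.eq_iff.mp h with ⟨h, -⟩ | ⟨-, h⟩
            · exact hua h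
            · exact hva h
          have h2 : s(u, v) ≠ s(u, c) := by
            intro h; rcases Sym2.eq_iff.mp h with ⟨-, h⟩ | ⟨h, -⟩
            · exact hvc h
            · exact hbc h
          have h3 : s(u, v) ≠ s(a, c) := by
            intro h; rcases Sym2.eq_iff.mp h with ⟨h, -⟩ | ⟨h, -⟩
            · exact hua h
            · exact hbc h
          simp only [h1, h2, h3, if_false, hva, hvc, or_false, false_or]
          constructor
          · intro h; exact absurd h (by decide)
          · rintro ⟨h4, -, h5⟩; exact absurd h5.symm h4
    · by_cases huc : u = c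
      · subst huc
        by_cases hva : v = a
        · subst hva
          have h1 : s(u, v) = s(v, u) := Sym2.eq_swap
          have h2 : s(u, v) ≠ s(v, b) := by
            intro h; rcases Sym2.eq_iff.mp h with ⟨h, -⟩ | ⟨h, -⟩
            · exact hua h
            · exact hub h
          have h3 : s(u, v) ≠ s(b, u) := by
            intro h; rcases Sym2.eq_iff.mp h with ⟨h, -⟩ | ⟨-, h⟩
            · exact hub h
            · exact hab h
          simp [h2, h3, ← h1, hua]
        · by_cases hvb : v = b
          · subst hvb
            have h1 : s(u, v) = s(v, u) := Sym2.eq_swap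
            have h2 : s(u, v) ≠ s(a, v) := by
              intro h; rcases Sym2.eq_iff.mp h with ⟨h, -⟩ | ⟨h, -⟩
              · exact hua h
              · exact hub h
            have h3 : s(u, v) ≠ s(a, u) := by
              intro h; rcases Sym2.eq_iff.mp h with ⟨h, -⟩ | ⟨-, h⟩
              · exact hua h
              · exact hva h
            simp [h2, h3, ← h1, hub]
          · have h1 : s(u, v) ≠ s(a, b) := by
              intro h; rcases Sym2.eq_iff.mp h with ⟨h, -⟩ | ⟨h, -⟩
              · exact hua h
              · exact hub h
            have h2 : s(u, v) ≠ s(b, u) := by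
              intro h; rcases Sym2.eq_iff.mp h with ⟨h, -⟩ | ⟨-, h⟩
              · exact hub h
              · exact hvb h
            have h3 : s(u, v) ≠ s(a, u) := by
              intro h; rcases Sym2.eq_iff.mp h with ⟨h, -⟩ | ⟨-, h⟩
              · exact hua h
              · exact hva h
            simp only [h1, h2, h3, if_false, hva, hvb, false_or]
            constructor
            · intro h; exact absurd h (by decide)
            · rintro ⟨h4, -, h5⟩; exact absurd h5.symm h4
      · have h1 : s(u, v) ≠ s(a, b) := by
          intro h; rcases Sym2.eq_iff.mp h with ⟨h, -⟩ | ⟨h, -⟩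
          · exact hua h
          · exact hub h
        have h2 : s(u, v) ≠ s(b, c) := by
          intro h; rcases Sym2.eq_iff.mp h with ⟨h, -⟩ | ⟨h, -⟩
          · exact hub h
          · exact huc h
        have h3 : s(u, v) ≠ s(a, c) := by
          intro h; rcases Sym2.eq_iff.mp h with ⟨h, -⟩ | ⟨h, -⟩
          · exact hua h
          · exact huc h
        simp [h1, h2, h3, hua, hub, huc]

theorem tri_isTri {V : Type} {a b c : V} (hab : a ≠ b) (hbc : b ≠ c) (hac : a ≠ c) :
    K.IsTri (K.tri a b c) := ⟨a, b, c, hab, hbc, hac, rfl⟩

end Pool.Agent.Work.MP_3035da_co
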